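import Mathlib

/-!
Definitions: the dyadic tree, the kernel `k`, and the two conditions on a measure.
-/

set_option autoImplicit false

open MeasureTheory Finset
open scoped ENNReal NNReal

namespace Pool.Agent.Q167.TR

/-- Vertices of the rooted dyadic tree are the finite binary words; the root `o` is the empty word and the children
of `v` are `v ++ [b]`. The edge between `v` and its parent is denoted by `v`; for `v = []` this is the edge
`(o*, o)`. -/
abbrev T := List Bool

/-- the edges of the geodesic from `o*` to `x` (the prefixes of the word `x`) -/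
def anc (x : T) : Finset T := x.inits.toFinset

/-- `d(x ∧ y)`, the number of edges common to the geodesics from `o*` to `x` and from `o*` to `y` -/
def dwedge (x y : T) : ℤ := (anc x ∩ anc y).card

/-- the kernel `k_{(a,b)}(x,y) = d(a ∧ x) + d(b ∧ y) - d(a ∧ y) - d(b ∧ x)` -/
def ker (p q : T × T) : ℤ := dwedge p.1 q.1 + dwedge p.2 q.2 - dwedge p.1 q.2 - dwedge p.2 q.1

/-- the parent; the parent of the root is `o* = none` -/
def par (v : T) : Option T := if v = [] then none else some v.dropLast

/-- condition (a') with constant `C`: the double integral of `|F(x) - F(y)|²` is at most `C ‖∇F‖²` for every function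
`F` on the vertices (with the value `F none` at `o*`) with `‖∇F‖` finite -/
def CondA [MeasurableSpace T] (μ : Measure T) (C : ℝ≥0) : Prop :=
  ∀ F : Option T → ℝ, ∑' v : T, ENNReal.ofReal ((F (some v) - F (par v)) ^ 2) ≠ ⊤ →
    ∫⁻ p : T × T, ENNReal.ofReal ((F (some p.1) - F (some p.2)) ^ 2) ∂(μ.prod μ) ≤
      C * ∑' v : T, ENNReal.ofReal ((F (some v) - F (par v)) ^ 2)

/-- condition (b) with constant `C`: for the reproducing kernel Hilbert space `H` on `T × T` with kernel `|k|`, the
inclusion of `H` into `L²(μ ⊗ μ)` has squared norm at most `C` -/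
def CondB [MeasurableSpace T] (μ : Measure T) (C : ℝ≥0) : Prop :=
  ∀ (H : Type) [NormedAddCommGroup H] [InnerProductSpace ℝ H] [CompleteSpace H] [RKHS ℝ H (T × T) ℝ],
    (∀ p q : T × T, RKHS.kernel H p q 1 = |(ker p q : ℝ)|) →
    ∀ f : H, ∫⁻ p : T × T, ‖f p‖ₑ ^ 2 ∂(μ.prod μ) ≤ C * ‖f‖ₑ ^ 2

end Pool.Agent.Q167.TR
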