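import Pool.Agent.Q167.TR.Tree

/-!
The main estimate: condition (a') controls the sums of a non-negative function along geodesics.
-/

set_option autoImplicit false

open MeasureTheory Finset
open scoped ENNReal NNReal

namespace Pool.Agent.Q167.TR

variable [MeasurableSpace T] [DiscreteMeasurableSpace T]

instance sfinite (μ : Measure T) : SFinite μ := by
  rw [← Measure.sum_smul_dirac μ]
  infer_instance

theorem lintegral_prod_mul' (μ : Measure T) (f g : T → ℝ≥0∞) :
    ∫⁻ p : T × T, f p.1 * g p.2 ∂(μ.prod μ) = (∫⁻ x, f x ∂μ) * ∫⁻ y, g y ∂μ :=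
  lintegral_prod_mul (Measurable.of_discrete).aemeasurable (Measurable.of_discrete).aemeasurable

/-- the product is finite -/
theorem prod_ne_top (μ : Measure T) (C : ℝ≥0) (hA : CondA μ C) (v : T) (hv : v ≠ []) :
    μ (S v) * μ (S v)ᶜ ≠ ⊤ := by
  classical
  let F : Option T → ℝ := fun o => o.elim 0 fun x => if v <+: x then 1 else 0
  have h2 : μ (S v) * μ (S v)ᶜ ≤ ∫⁻ p : T × T, ENNReal.ofReal ((F (some p.1) - F (some p.2)) ^ 2) ∂(μ.prod μ) := by
    have h3 : μ (S v) * μ (S v)ᶜ = ∫⁻ p : T × T, (S v).indicator 1 p.1 * (S v)ᶜ.indicator 1 p.2 ∂(μ.prod μ) := by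
      rw [lintegral_prod_mul' μ ((S v).indicator 1) ((S v)ᶜ.indicator 1), lintegral_indicator_one
        (MeasurableSet.of_discrete), lintegral_indicator_one (MeasurableSet.of_discrete)]
    rw [h3]
    refine lintegral_mono fun p => ?_
    by_cases hx : p.1 ∈ S v
    · by_cases hy : p.2 ∈ (S v)ᶜ
      · rw [Set.indicator_of_mem hx, Set.indicator_of_mem hy]
        have hx' : v <+: p.1 := hx
        have hy' : ¬ v <+: p.2 := hy
        simp [F, hx', hy']
      · rw [Set.indicator_of_notMem hy, mul_zero]; exact bot_le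
    · rw [Set.indicator_of_notMem hx, zero_mul]; exact bot_le
  have h4 : ∑' w : T, ENNReal.ofReal ((F (some w) - F (par w)) ^ 2) = 1 := by
    rw [tsum_eq_single v]
    · have h5 : ¬ v <+: v.dropLast := fun hh => by
        have h6 := hh.length_le
        rw [List.length_dropLast] at h6
        have h7 : 0 < v.length := List.length_pos_iff.2 hv
        omega
      simp [F, par, hv, h5]
    · intro w hw
      have : F (some w) = F (par w) := by
        rcases List.eq_nil_or_concat w with rfl | ⟨u, b, rfl⟩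
        · simp [F, par, List.prefix_nil, hv]
        · rw [List.concat_eq_append] at hw ⊢
          have h6 : v <+: u ++ [b] ↔ v <+: u := by
            rw [List.prefix_concat_iff]
            constructor
            · rintro (h | h)
              · exact absurd h.symm hw
              · exact h
            · exact Or.inr
          simp [F, par, h6]
      rw [this]; simp
  have h1 := hA F (by rw [h4]; exact ENNReal.one_ne_top)
  rw [h4, mul_one] at h1
  exact ne_top_of_le_ne_top ENNReal.coe_ne_top (h2.trans h1)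

/-- the edges with an end in `B` -/
def touch (B : Set T) : Set T := {v | v ≠ [] ∧ (v ∈ B ∨ v.dropLast ∈ B)}

/-- one branch at the centre -/
theorem branch (μ : Measure T) (C : ℝ≥0) (hA : CondA μ C) (g : T → ℝ)
    (hgf : ∑' v : T, ENNReal.ofReal (g v ^ 2) ≠ ⊤) (c : T) (B : Set T)
    (hB : ∀ (u : T) (b : Bool), (u ++ [b] ∈ B → u ∉ B → u = c) ∧ (u ++ [b] ∉ B → u ∈ B → u ++ [b] = c))
    (hμ : μ B ≤ μ Bᶜ) :
    μ Set.univ * ∫⁻ x in B, ENNReal.ofReal (G g c x ^ 2) ∂μ ≤
      C * ∑' v : T, (touch B).indicator 1 v * ENNReal.ofReal (g v ^ 2) := by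
  classical
  let f : T → ℝ := B.indicator (G g c)
  let F : Option T → ℝ := fun o => o.elim (f []) f
  set I := ∫⁻ x in B, ENNReal.ofReal (G g c x ^ 2) ∂μ with hI
  have hIi : I = ∫⁻ x, B.indicator (fun x => ENNReal.ofReal (G g c x ^ 2)) x ∂μ := by
    rw [lintegral_indicator (MeasurableSet.of_discrete)]
  have h2 : μ Set.univ * I ≤ 2 * (I * μ Bᶜ) := by
    have : μ Set.univ ≤ 2 * μ Bᶜ := by
      rw [← measure_add_measure_compl (μ := μ) (s := B) (MeasurableSet.of_discrete), two_mul]
      exact add_le_add hμ le_rfl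
    calc μ Set.univ * I ≤ (2 * μ Bᶜ) * I := by gcongr
      _ = 2 * (I * μ Bᶜ) := by ring
  have h3 : 2 * (I * μ Bᶜ) ≤
      ∫⁻ p : T × T, ENNReal.ofReal ((F (some p.1) - F (some p.2)) ^ 2) ∂(μ.prod μ) := by
    have h4 : I * μ Bᶜ = ∫⁻ p : T × T, B.indicator (fun x => ENNReal.ofReal (G g c x ^ 2)) p.1 *
        Bᶜ.indicator 1 p.2 ∂(μ.prod μ) := by
      rw [lintegral_prod_mul' μ (B.indicator (fun x => ENNReal.ofReal (G g c x ^ 2))) (Bᶜ.indicator 1),
        lintegral_indicator_one (MeasurableSet.of_discrete), hIi]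
    have h5 : I * μ Bᶜ = ∫⁻ p : T × T, Bᶜ.indicator 1 p.1 *
        B.indicator (fun x => ENNReal.ofReal (G g c x ^ 2)) p.2 ∂(μ.prod μ) := by
      rw [lintegral_prod_mul' μ (Bᶜ.indicator 1) (B.indicator (fun x => ENNReal.ofReal (G g c x ^ 2))),
        lintegral_indicator_one (MeasurableSet.of_discrete), hIi, mul_comm]
    rw [two_mul]
    nth_rw 1 [h4]
    rw [h5, ← lintegral_add_left (Measurable.of_discrete)]
    refine lintegral_mono fun p => ?_
    by_cases hx : p.1 ∈ B <;> by_cases hy : p.2 ∈ B
    · simp [hx, hy]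
    · simp [F, f, hx, hy]
    · simp [F, f, hx, hy]
    · simp [hx, hy]
  have h6 : ∑' v : T, ENNReal.ofReal ((F (some v) - F (par v)) ^ 2) ≤
      ∑' v : T, (touch B).indicator 1 v * ENNReal.ofReal (g v ^ 2) := by
    refine ENNReal.tsum_le_tsum fun v => ?_
    rcases List.eq_nil_or_concat v with rfl | ⟨u, b, rfl⟩
    · simp [F, par]
    · rw [List.concat_eq_append]
      have e1 : F (par (u ++ [b])) = f u := by simp [F, par]
      have e2 : F (some (u ++ [b])) = f (u ++ [b]) := rfl
      have e3 : (u ++ [b]).dropLast = u := by simp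
      rw [e1, e2]
      have hgr := G_grad (g := g) c u b
      by_cases hv : u ++ [b] ∈ B <;> by_cases hu : u ∈ B
      · simp only [f, Set.indicator_of_mem hv, Set.indicator_of_mem hu]
        rw [hgr, Set.indicator_of_mem (show u ++ [b] ∈ touch B from ⟨by simp, Or.inl hv⟩), Pi.one_apply, one_mul]
      · have := (hB u b).1 hv hu
        simp only [f, Set.indicator_of_mem hv, Set.indicator_of_notMem hu]
        rw [Set.indicator_of_mem (show u ++ [b] ∈ touch B from ⟨by simp, Or.inl hv⟩), Pi.one_apply, one_mul,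
          ← hgr, this, G_self]
      · have := (hB u b).2 hv hu
        simp only [f, Set.indicator_of_notMem hv, Set.indicator_of_mem hu]
        rw [Set.indicator_of_mem (show u ++ [b] ∈ touch B from ⟨by simp, Or.inr (by rw [e3]; exact hu)⟩),
          Pi.one_apply, one_mul, ← hgr, this, G_self]
      · simp [f, hv, hu]
  have h1 := hA F (by
    refine ne_top_of_le_ne_top hgf (h6.trans (ENNReal.tsum_le_tsum fun v => ?_))
    exact mul_le_of_le_one_left bot_le (Set.indicator_le_self' (fun _ _ => zero_le) _))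
  calc μ Set.univ * I ≤ 2 * (I * μ Bᶜ) := h2
    _ ≤ _ := h3
    _ ≤ _ := h1
    _ ≤ _ := by gcongr

theorem centre_est (μ : Measure T) (C : ℝ≥0) (hA : CondA μ C) (g : T → ℝ)
    (hgf : ∑' v : T, ENNReal.ofReal (g v ^ 2) ≠ ⊤) :
    ∃ c : T, μ Set.univ * ∫⁻ x, ENNReal.ofReal (G g c x ^ 2) ∂μ ≤ C * ∑' v : T, ENNReal.ofReal (g v ^ 2) := by
  classical
  obtain ⟨c, hc1, hc2⟩ := center μ fun v hv => prod_ne_top μ C hA v hv
  refine ⟨c, ?_⟩
  have hlen : ∀ (v w : T), v <+: w → v.length ≤ w.length := fun v w h => h.length_le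
  have hself : ∀ b : Bool, ¬ (c ++ [b]) <+: c := fun b h => by
    have := hlen _ _ h
    simp at this
  -- the three branches
  have b0 := branch μ C hA g hgf c (S c)ᶜ (by
    intro u b
    constructor
    · intro h1 h2
      exfalso
      rw [Set.notMem_compl_iff] at h2
      exact h1 (List.IsPrefix.trans h2 (List.prefix_append u [b]))
    · intro h1 h2
      rw [Set.notMem_compl_iff] at h1
      have h3 : c <+: u ++ [b] := h1
      rw [List.prefix_concat_iff] at h3
      rcases h3 with h3 | h3
      · exact h3.symm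
      · exact absurd h3 h2) (by rw [compl_compl]; exact hc1)
  have bb : ∀ e : Bool, μ Set.univ * ∫⁻ x in S (c ++ [e]), ENNReal.ofReal (G g c x ^ 2) ∂μ ≤
      C * ∑' v : T, (touch (S (c ++ [e]))).indicator 1 v * ENNReal.ofReal (g v ^ 2) := by
    intro e
    refine branch μ C hA g hgf c (S (c ++ [e])) ?_ (hc2 e)
    intro u b
    constructor
    · intro h1 h2
      have h3 : c ++ [e] <+: u ++ [b] := h1
      rw [List.prefix_concat_iff] at h3
      rcases h3 with h3 | h3
      · exact (List.append_inj' h3 rfl).1.symm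
      · exact absurd h3 h2
    · intro h1 h2
      exact absurd (List.IsPrefix.trans (show c ++ [e] <+: u from h2) (List.prefix_append u [b])) h1
  have hsplit : ∫⁻ x, ENNReal.ofReal (G g c x ^ 2) ∂μ ≤ ∫⁻ x in (S c)ᶜ, ENNReal.ofReal (G g c x ^ 2) ∂μ +
      (∫⁻ x in S (c ++ [true]), ENNReal.ofReal (G g c x ^ 2) ∂μ +
        ∫⁻ x in S (c ++ [false]), ENNReal.ofReal (G g c x ^ 2) ∂μ) := by
    rw [← lintegral_indicator (MeasurableSet.of_discrete), ← lintegral_indicator (MeasurableSet.of_discrete),
      ← lintegral_indicator (MeasurableSet.of_discrete), ← lintegral_add_left (Measurable.of_discrete),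
      ← lintegral_add_left (Measurable.of_discrete)]
    refine lintegral_mono fun x => ?_
    by_cases h1 : x ∈ (S c)ᶜ
    · rw [Set.indicator_of_mem h1]; exact le_self_add
    · rw [Set.notMem_compl_iff] at h1
      obtain ⟨r, hr⟩ : c <+: x := h1
      rcases r with _ | ⟨e, r⟩
      · rw [List.append_nil] at hr
        rw [← hr, G_self]; simp
      · have h2 : x ∈ S (c ++ [e]) := ⟨r, by rw [← hr]; simp⟩
        cases e
        · refine le_trans ?_ le_add_self
          refine le_trans ?_ le_add_self
          rw [Set.indicator_of_mem h2]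
        · refine le_trans ?_ le_add_self
          refine le_trans ?_ le_self_add
          rw [Set.indicator_of_mem h2]
  calc μ Set.univ * ∫⁻ x, ENNReal.ofReal (G g c x ^ 2) ∂μ
      ≤ μ Set.univ * (∫⁻ x in (S c)ᶜ, ENNReal.ofReal (G g c x ^ 2) ∂μ +
      (∫⁻ x in S (c ++ [true]), ENNReal.ofReal (G g c x ^ 2) ∂μ +
        ∫⁻ x in S (c ++ [false]), ENNReal.ofReal (G g c x ^ 2) ∂μ)) := by gcongr
    _ ≤ C * (∑' v : T, (touch (S c)ᶜ).indicator 1 v * ENNReal.ofReal (g v ^ 2)) +
        (C * (∑' v : T, (touch (S (c ++ [true]))).indicator 1 v * ENNReal.ofReal (g v ^ 2)) +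
          C * (∑' v : T, (touch (S (c ++ [false]))).indicator 1 v * ENNReal.ofReal (g v ^ 2))) := by
      rw [mul_add, mul_add]
      exact add_le_add b0 (add_le_add (bb true) (bb false))
    _ = C * ∑' v : T, ((touch (S c)ᶜ).indicator 1 v + ((touch (S (c ++ [true]))).indicator 1 v +
        (touch (S (c ++ [false]))).indicator 1 v)) * ENNReal.ofReal (g v ^ 2) := by
      simp_rw [add_mul]
      rw [ENNReal.tsum_add, ENNReal.tsum_add, mul_add, mul_add]
    _ ≤ C * ∑' v : T, ENNReal.ofReal (g v ^ 2) := by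
      gcongr with v
      refine mul_le_of_le_one_left bot_le ?_
      rcases List.eq_nil_or_concat v with rfl | ⟨u, b, rfl⟩
      · simp [touch]
      · rw [List.concat_eq_append]
        have hdisj : ∀ e : Bool, ∀ w, w ∈ S (c ++ [e]) → w ∈ S c := fun e w hw =>
          (List.prefix_append c [e]).trans hw
        have htf : ∀ w, w ∈ S (c ++ [true]) → w ∈ S (c ++ [false]) → False := by
          intro w h1 h2
          rcases comparable h1 h2 with h | h
          · have := List.IsPrefix.eq_of_length h (by simp)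
            simp at this
          · have := List.IsPrefix.eq_of_length h (by simp)
            simp at this
        -- crossing edges end at c
        have cr0 : u ++ [b] ∈ S c → u ∉ S c → u ++ [b] = c := by
          intro h1 h2
          have h3 : c <+: u ++ [b] := h1
          rw [List.prefix_concat_iff] at h3
          rcases h3 with h3 | h3
          · exact h3.symm
          · exact absurd h3 h2
        have cr1 : ∀ e, u ++ [b] ∈ S (c ++ [e]) → u ∉ S (c ++ [e]) → u = c := by
          intro e h1 h2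
          have h3 : c ++ [e] <+: u ++ [b] := h1
          rw [List.prefix_concat_iff] at h3
          rcases h3 with h3 | h3
          · exact (List.append_inj' h3 rfl).1.symm
          · exact absurd h3 h2
        have mon : ∀ w, u ∈ S w → u ++ [b] ∈ S w := fun w h => List.IsPrefix.trans h (List.prefix_append u [b])
        have hcc : ∀ e, c ∉ S (c ++ [e]) := fun e h => hself e h
        have hcS : c ∈ S c := List.prefix_refl c
        have hne : u ++ [b] ≠ [] := by simp
        have hA0 : u ++ [b] ∈ touch (S c)ᶜ ↔ u ∉ S c := by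
          rw [touch, Set.mem_ofPred_eq, List.dropLast_concat]
          constructor
          · rintro ⟨-, h | h⟩
            · exact fun h' => h (mon _ h')
            · exact h
          · intro h; exact ⟨hne, Or.inr h⟩
        have hAe : ∀ e, u ++ [b] ∈ touch (S (c ++ [e])) ↔ u ++ [b] ∈ S (c ++ [e]) := by
          intro e
          rw [touch, Set.mem_ofPred_eq, List.dropLast_concat]
          constructor
          · rintro ⟨-, h | h⟩
            · exact h
            · exact mon _ h
          · intro h; exact ⟨hne, Or.inl h⟩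
        by_cases h1 : u ∉ S c
        · have h2 : ∀ e, u ++ [b] ∉ S (c ++ [e]) := by
            intro e h3
            have h4 : u = c := cr1 e h3 fun h5 => h1 (hdisj e _ h5)
            exact h1 (h4 ▸ hcS)
          rw [Set.indicator_of_notMem (fun h => h2 true ((hAe true).1 h)),
            Set.indicator_of_notMem (fun h => h2 false ((hAe false).1 h)), add_zero, add_zero]
          exact Set.indicator_le_self' (fun _ _ => zero_le) _
        · rw [Set.indicator_of_notMem (fun h => h1 (hA0.1 h)), zero_add]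
          by_cases h3 : u ++ [b] ∈ S (c ++ [true])
          · have h4 : u ++ [b] ∉ S (c ++ [false]) := fun h => htf _ h3 h
            rw [Set.indicator_of_notMem (fun h => h4 ((hAe false).1 h)), add_zero]
            exact Set.indicator_le_self' (fun _ _ => zero_le) _
          · rw [Set.indicator_of_notMem (fun h => h3 ((hAe true).1 h)), zero_add]
            exact Set.indicator_le_self' (fun _ _ => zero_le) _

/-- the main estimate -/
theorem path_est (μ : Measure T) (C : ℝ≥0) (hA : CondA μ C) (g : T → ℝ) (hg : ∀ v, 0 ≤ g v)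
    (hgf : ∑' v : T, ENNReal.ofReal (g v ^ 2) ≠ ⊤) :
    ∫⁻ p : T × T, ENNReal.ofReal ((∑ v ∈ geo p.1 p.2, g v) ^ 2) ∂(μ.prod μ) ≤
      4 * C * ∑' v : T, ENNReal.ofReal (g v ^ 2) := by
  obtain ⟨c, hc⟩ := centre_est μ C hA g hgf
  have h1 : ∀ p : T × T, ENNReal.ofReal ((∑ v ∈ geo p.1 p.2, g v) ^ 2) ≤
      2 * ENNReal.ofReal (G g c p.1 ^ 2) + 2 * ENNReal.ofReal (G g c p.2 ^ 2) := by
    intro p
    have h2 : ∑ v ∈ geo p.1 p.2, g v ≤ G g c p.1 + G g c p.2 := by
      refine (Finset.sum_le_sum_of_subset_of_nonneg (geo_triangle p.1 p.2 c) fun v _ _ => hg v).trans ?_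
      unfold G
      rw [← Finset.sum_union_inter]
      have : 0 ≤ ∑ v ∈ geo p.1 c ∩ geo p.2 c, g v := Finset.sum_nonneg fun v _ => hg v
      linarith
    have h3 : 0 ≤ ∑ v ∈ geo p.1 p.2, g v := Finset.sum_nonneg fun v _ => hg v
    have h4 : (∑ v ∈ geo p.1 p.2, g v) ^ 2 ≤ 2 * G g c p.1 ^ 2 + 2 * G g c p.2 ^ 2 := by
      have := G_nonneg hg c p.1
      have := G_nonneg hg c p.2
      nlinarith [sq_nonneg (G g c p.1 - G g c p.2)]
    calc ENNReal.ofReal ((∑ v ∈ geo p.1 p.2, g v) ^ 2)
        ≤ ENNReal.ofReal (2 * G g c p.1 ^ 2 + 2 * G g c p.2 ^ 2) := ENNReal.ofReal_le_ofReal h4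
      _ = _ := by
        rw [ENNReal.ofReal_add (by positivity) (by positivity), ENNReal.ofReal_mul (by norm_num),
          ENNReal.ofReal_mul (by norm_num), ENNReal.ofReal_ofNat]
  refine (lintegral_mono h1).trans ?_
  rw [lintegral_add_left (Measurable.of_discrete)]
  have h2 : ∫⁻ p : T × T, 2 * ENNReal.ofReal (G g c p.1 ^ 2) ∂(μ.prod μ) =
      2 * (μ Set.univ * ∫⁻ x, ENNReal.ofReal (G g c x ^ 2) ∂μ) := by
    have := lintegral_prod_mul' μ (fun x => ENNReal.ofReal (G g c x ^ 2)) (fun _ => 1)
    rw [lintegral_const_mul _ (Measurable.of_discrete)]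
    congr 1
    simp only [mul_one, lintegral_const, one_mul] at this
    rw [this, mul_comm]
  have h3 : ∫⁻ p : T × T, 2 * ENNReal.ofReal (G g c p.2 ^ 2) ∂(μ.prod μ) =
      2 * (μ Set.univ * ∫⁻ x, ENNReal.ofReal (G g c x ^ 2) ∂μ) := by
    have := lintegral_prod_mul' μ (fun _ => 1) (fun x => ENNReal.ofReal (G g c x ^ 2))
    rw [lintegral_const_mul _ (Measurable.of_discrete)]
    congr 1
    simp only [one_mul, lintegral_const] at this
    rw [this]
  rw [h2, h3, ← add_mul]
  calc (2 + 2) * (μ Set.univ * ∫⁻ x, ENNReal.ofReal (G g c x ^ 2) ∂μ)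
      ≤ (2 + 2) * (C * ∑' v : T, ENNReal.ofReal (g v ^ 2)) := by gcongr
    _ = _ := by rw [← mul_assoc]; norm_num

end Pool.Agent.Q167.TR
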