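import Pool.Agent.Q167.TR.Est

/-!
The reproducing kernel Hilbert space of `|k|`.
-/

set_option autoImplicit false

open MeasureTheory Finset
open scoped ENNReal NNReal InnerProductSpace

namespace Pool.Agent.Q167.TR

/-- the two ends of the edge `v` -/
def ep (v : T) : T × T := (v.dropLast, v)

theorem geo_ep {v : T} (hv : v ≠ []) : geo (ep v).1 (ep v).2 = {v} := by
  obtain ⟨u, b, rfl⟩ := (List.eq_nil_or_concat v).resolve_left hv
  rw [List.concat_eq_append]
  ext w
  rw [mem_geo, mem_singleton, ep]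
  simp only [List.dropLast_concat]
  rw [List.prefix_concat_iff]
  constructor
  · rintro (⟨h1, h2⟩ | ⟨h1, h2⟩)
    · exact absurd (Or.inr h1) h2
    · rcases h1 with h1 | h1
      · exact h1
      · exact absurd h1 h2
  · rintro rfl
    right
    refine ⟨Or.inl rfl, fun hh => ?_⟩
    have := hh.length_le
    simp at this

theorem geo_self (x : T) : geo x x = ∅ := by simp [geo]

variable [MeasurableSpace T] [DiscreteMeasurableSpace T]

set_option linter.unusedSectionVars false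

section
variable {H : Type} [NormedAddCommGroup H] [InnerProductSpace ℝ H] [CompleteSpace H] [RKHS ℝ H (T × T) ℝ]

/-- the kernel functions -/
noncomputable def κ (H : Type) [NormedAddCommGroup H] [InnerProductSpace ℝ H] [CompleteSpace H]
    [RKHS ℝ H (T × T) ℝ] (p : T × T) : H := RKHS.kerFun H p (1 : ℝ)

omit [MeasurableSpace T] [DiscreteMeasurableSpace T] in
theorem inner_κ (p : T × T) (f : H) : ⟪κ H p, f⟫_ℝ = f p := by
  rw [κ, RKHS.kerFun_inner]
  simp

omit [MeasurableSpace T] [DiscreteMeasurableSpace T] in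
theorem κ_κ (hk : ∀ p q : T × T, RKHS.kernel H p q 1 = |(ker p q : ℝ)|) (p q : T × T) :
    ⟪κ H p, κ H q⟫_ℝ = ((geo p.1 p.2 ∩ geo q.1 q.2).card : ℝ) := by
  rw [inner_κ, κ, RKHS.kerFun_apply, hk]
  have := abs_ker p q
  exact_mod_cast this

omit [MeasurableSpace T] [DiscreteMeasurableSpace T] in
theorem κ_sum (hk : ∀ p q : T × T, RKHS.kernel H p q 1 = |(ker p q : ℝ)|) (p : T × T) :
    κ H p = ∑ v ∈ geo p.1 p.2, κ H (ep v) := by
  have hne : ∀ v ∈ geo p.1 p.2, v ≠ [] := fun v hv h => nil_notMem_geo _ _ (h ▸ hv)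
  have h1 : ⟪κ H p - ∑ v ∈ geo p.1 p.2, κ H (ep v), κ H p⟫_ℝ = 0 := by
    rw [inner_sub_left, sum_inner, κ_κ hk, inter_self]
    have : ∑ v ∈ geo p.1 p.2, ⟪κ H (ep v), κ H p⟫_ℝ = ∑ v ∈ geo p.1 p.2, (1 : ℝ) := by
      refine Finset.sum_congr rfl fun v hv => ?_
      rw [κ_κ hk, geo_ep (hne v hv), singleton_inter_of_mem hv, card_singleton, Nat.cast_one]
    rw [this, Finset.sum_const, nsmul_eq_mul, mul_one, sub_self]
  have h2 : ∀ w ∈ geo p.1 p.2, ⟪κ H p - ∑ v ∈ geo p.1 p.2, κ H (ep v), κ H (ep w)⟫_ℝ = 0 := by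
    intro w hw
    rw [inner_sub_left, sum_inner, κ_κ hk, geo_ep (hne w hw), inter_singleton_of_mem hw, card_singleton,
      Finset.sum_eq_single w]
    · rw [κ_κ hk, geo_ep (hne w hw), inter_self, card_singleton, sub_self]
    · intro v hv hvw
      rw [κ_κ hk, geo_ep (hne w hw), geo_ep (hne v hv), singleton_inter_of_notMem (by simpa using hvw),
        card_empty, Nat.cast_zero]
    · intro h; exact absurd hw h
  have h3 : ⟪κ H p - ∑ v ∈ geo p.1 p.2, κ H (ep v), κ H p - ∑ v ∈ geo p.1 p.2, κ H (ep v)⟫_ℝ = 0 := by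
    rw [inner_sub_right, h1, inner_sum, Finset.sum_eq_zero h2, sub_zero]
  exact sub_eq_zero.1 (inner_self_eq_zero.1 h3)

end

theorem a_to_b (μ : Measure T) (C : ℝ≥0) (hA : CondA μ C) : CondB μ (4 * C) := by
  classical
  intro H _ _ _ _ hk f
  set g : T → ℝ := fun v => |f (ep v)| with hg
  have hg0 : ∀ v, 0 ≤ g v := fun v => abs_nonneg _
  -- Bessel
  have hon : Orthonormal ℝ fun v : {v : T // v ≠ []} => κ H (ep v) := by
    constructor
    · intro v
      have : ‖κ H (ep v)‖ ^ 2 = 1 := by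
        rw [← real_inner_self_eq_norm_sq, κ_κ hk, geo_ep v.2, inter_self, card_singleton, Nat.cast_one]
      have h0 := norm_nonneg (κ H (ep v))
      nlinarith
    · intro v w hvw
      simp only
      rw [κ_κ hk, geo_ep v.2, geo_ep w.2, singleton_inter_of_notMem, card_empty, Nat.cast_zero]
      rw [mem_singleton]
      exact fun h => hvw (Subtype.ext h)
  have hnil : g [] = 0 := by
    have h1 : ‖κ H (ep [])‖ ^ 2 = 0 := by
      rw [← real_inner_self_eq_norm_sq, κ_κ hk]
      simp [ep, geo_self]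
    have h2 : κ H (ep []) = 0 := norm_eq_zero.1 (pow_eq_zero_iff two_ne_zero |>.1 h1)
    rw [hg]
    simp only
    rw [← inner_κ, h2, inner_zero_left, abs_zero]
  have hbessel : ∑' v : T, ENNReal.ofReal (g v ^ 2) ≤ ‖f‖ₑ ^ 2 := by
    rw [ENNReal.tsum_eq_iSup_sum]
    refine iSup_le fun s => ?_
    rw [← ENNReal.ofReal_sum_of_nonneg fun _ _ => sq_nonneg _]
    have h1 := hon.sum_inner_products_le f (s := s.subtype (· ≠ []))
    rw [Finset.sum_subtype_eq_sum_filter (fun v => ‖⟪κ H (ep v), f⟫_ℝ‖ ^ 2)] at h1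
    have h2 : ∑ v ∈ s, g v ^ 2 = ∑ v ∈ s.filter (· ≠ []), ‖⟪κ H (ep v), f⟫_ℝ‖ ^ 2 := by
      rw [Finset.sum_filter]
      refine Finset.sum_congr rfl fun v _ => ?_
      by_cases hv : v = []
      · subst hv; rw [hnil]; simp
      · rw [if_pos hv, inner_κ]
        rfl
    rw [h2]
    have h3 : ‖f‖ₑ ^ 2 = ENNReal.ofReal (‖f‖ ^ 2) := by
      rw [ENNReal.ofReal_pow (norm_nonneg _), ofReal_norm]
    rw [h3]
    exact ENNReal.ofReal_le_ofReal h1
  have hfin : ∑' v : T, ENNReal.ofReal (g v ^ 2) ≠ ⊤ :=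
    ne_top_of_le_ne_top (ENNReal.pow_ne_top enorm_ne_top) hbessel
  have hpt : ∀ p : T × T, ‖f p‖ₑ ^ 2 ≤ ENNReal.ofReal ((∑ v ∈ geo p.1 p.2, g v) ^ 2) := by
    intro p
    have h1 : |f p| ≤ ∑ v ∈ geo p.1 p.2, g v := by
      rw [← inner_κ, κ_sum hk, sum_inner]
      refine (Finset.abs_sum_le_sum_abs _ _).trans (Finset.sum_le_sum fun v _ => ?_)
      rw [inner_κ]
    have h3 : ‖f p‖ₑ ^ 2 = ENNReal.ofReal (|f p| ^ 2) := by
      rw [ENNReal.ofReal_pow (abs_nonneg _), ← Real.norm_eq_abs, ofReal_norm]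
    rw [h3]
    exact ENNReal.ofReal_le_ofReal (pow_le_pow_left₀ (abs_nonneg _) h1 2)
  calc ∫⁻ p : T × T, ‖f p‖ₑ ^ 2 ∂(μ.prod μ)
      ≤ ∫⁻ p : T × T, ENNReal.ofReal ((∑ v ∈ geo p.1 p.2, g v) ^ 2) ∂(μ.prod μ) := lintegral_mono hpt
    _ ≤ 4 * C * ∑' v : T, ENNReal.ofReal (g v ^ 2) := path_est μ C hA g hg0 hfin
    _ ≤ 4 * C * ‖f‖ₑ ^ 2 := by gcongr
    _ = _ := by push_cast; rfl

/-- the concrete model of the space -/
abbrev H0 := lp (fun _ : {v : T // v ≠ []} => ℝ) 2

/-- representers of the point evaluations -/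
noncomputable def wrep (p : T × T) : H0 := by
  classical
  exact ∑ v ∈ (geo p.1 p.2).subtype (· ≠ []), lp.single 2 v (1 : ℝ)

omit [MeasurableSpace T] [DiscreteMeasurableSpace T] in
theorem inner_wrep (p : T × T) (f : H0) : ⟪wrep p, f⟫_ℝ = ∑ v ∈ (geo p.1 p.2).subtype (· ≠ []), f v := by
  classical
  rw [wrep, sum_inner]
  refine Finset.sum_congr (by congr) fun v _ => ?_
  rw [lp.inner_single_left]
  simp

omit [MeasurableSpace T] [DiscreteMeasurableSpace T] in
theorem inner_wrep_ep (v : {v : T // v ≠ []}) (f : H0) : ⟪wrep (ep v), f⟫_ℝ = f v := by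
  rw [inner_wrep, geo_ep v.2]
  have : ({(v : T)} : Finset T).subtype (· ≠ []) = {v} := by
    ext w
    rw [Finset.mem_subtype, mem_singleton, mem_singleton, Subtype.ext_iff]
  rw [this, Finset.sum_singleton]

/-- the model as a reproducing kernel Hilbert space -/
noncomputable instance rkhsH0 : RKHS ℝ H0 (T × T) ℝ where
  coeCLM := ContinuousLinearMap.pi fun p => innerSL ℝ (wrep p)
  coeCLM_injective := by
    intro f g hfg
    refine lp.ext ?_
    ext v
    have := congrFun hfg (ep v)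
    simp only [ContinuousLinearMap.coe_pi', innerSL_apply_apply] at this
    rwa [inner_wrep_ep, inner_wrep_ep] at this

omit [MeasurableSpace T] [DiscreteMeasurableSpace T] in
theorem apply_H0 (f : H0) (p : T × T) : (RKHS.coeCLM ℝ f : T × T → ℝ) p = ⟪wrep p, f⟫_ℝ := rfl

omit [MeasurableSpace T] [DiscreteMeasurableSpace T] in
theorem sum_anc (F : Option T → ℝ) (x : T) :
    ∑ v ∈ anc x, (F (some v) - F (par v)) = F (some x) - F none := by
  induction x using List.reverseRecOn with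
  | nil =>
    have : anc [] = {[]} := by
      ext w; rw [mem_anc, mem_singleton, List.prefix_nil]
    rw [this, Finset.sum_singleton]
    simp [par]
  | append_singleton u b ih =>
    have h0 : ¬ (u ++ [b]) <+: u := fun hh => by
      have := hh.length_le
      simp at this
    have : anc (u ++ [b]) = insert (u ++ [b]) (anc u) := by
      ext w; rw [mem_insert, mem_anc, mem_anc, List.prefix_concat_iff]
    rw [this, Finset.sum_insert (by rw [mem_anc]; exact h0), ih]
    simp [par]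

omit [MeasurableSpace T] [DiscreteMeasurableSpace T] in
theorem abs_diff_le (F : Option T → ℝ) (x y : T) :
    |F (some x) - F (some y)| ≤ ∑ v ∈ geo x y, |F (some v) - F (par v)| := by
  have h1 : F (some x) - F (some y) = ∑ v ∈ anc x \ anc y, (F (some v) - F (par v)) -
      ∑ v ∈ anc y \ anc x, (F (some v) - F (par v)) := by
    rw [Finset.sum_sdiff_sub_sum_sdiff, sum_anc, sum_anc]; ring
  have h2 : geo x y = (anc x \ anc y) ∪ (anc y \ anc x) := rfl
  rw [h1, h2, Finset.sum_union (disjoint_sdiff_sdiff)]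
  exact (abs_sub _ _).trans (add_le_add (Finset.abs_sum_le_sum_abs _ _) (Finset.abs_sum_le_sum_abs _ _))

theorem b_to_a (μ : Measure T) (C : ℝ≥0) (hB : CondB μ C) : CondA μ C := by
  classical
  intro F hF
  have hκ : ∀ p, κ H0 p = wrep p := by
    intro p
    refine ext_inner_right ℝ fun f => ?_
    rw [inner_κ]
    exact apply_H0 f p
  have hw : ∀ (q : T × T) (v : {v : T // v ≠ []}),
      (wrep q : {v : T // v ≠ []} → ℝ) v = if (v : T) ∈ geo q.1 q.2 then 1 else 0 := by
    intro q v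
    rw [← inner_wrep_ep v (wrep q), real_inner_comm, inner_wrep]
    have h1 : ∀ w : {v : T // v ≠ []}, (wrep (ep v) : {v : T // v ≠ []} → ℝ) w = if w = v then 1 else 0 := by
      intro w
      have h2 : wrep (ep v) = lp.single 2 v (1 : ℝ) := by
        refine ext_inner_right ℝ fun f => ?_
        rw [inner_wrep_ep, lp.inner_single_left]
        simp
      rw [h2, lp.single_apply]
      by_cases h3 : w = v
      · subst h3; simp
      · simp [h3]
    simp_rw [h1]
    rw [Finset.sum_ite_eq']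
    congr 1
    rw [Finset.mem_subtype]
  have hker : ∀ p q : T × T, RKHS.kernel H0 p q 1 = |(ker p q : ℝ)| := by
    intro p q
    have e : RKHS.kernel H0 p q 1 = ⟪κ H0 p, κ H0 q⟫_ℝ := by
      rw [inner_κ, κ, RKHS.kerFun_apply]
    rw [e, hκ, hκ, inner_wrep]
    simp_rw [hw]
    rw [Finset.sum_subtype_eq_sum_filter (fun v => if v ∈ geo q.1 q.2 then (1 : ℝ) else 0), ← Finset.sum_filter,
      Finset.sum_const, nsmul_eq_mul, mul_one]
    have h1 : ((geo p.1 p.2).filter (· ≠ [])).filter (· ∈ geo q.1 q.2) = geo p.1 p.2 ∩ geo q.1 q.2 := by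
      ext v
      rw [mem_filter, mem_filter, mem_inter]
      constructor
      · rintro ⟨⟨h1, -⟩, h2⟩; exact ⟨h1, h2⟩
      · rintro ⟨h1, h2⟩
        exact ⟨⟨h1, fun h => nil_notMem_geo _ _ (h ▸ h1)⟩, h2⟩
    rw [h1]
    have := abs_ker p q
    exact_mod_cast this.symm
  have hsum : Summable fun v : T => (F (some v) - F (par v)) ^ 2 := by
    have h1 := ENNReal.summable_toReal hF
    refine h1.congr fun v => ?_
    rw [ENNReal.toReal_ofReal (sq_nonneg _)]
  have hsub : Summable fun v : {v : T // v ≠ []} => (F (some (v : T)) - F (par (v : T))) ^ 2 :=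
    hsum.comp_injective Subtype.coe_injective
  have hmem : Memℓp (fun v : {v : T // v ≠ []} => |F (some (v : T)) - F (par (v : T))|) 2 := by
    refine memℓp_gen ?_
    refine hsub.congr fun v => ?_
    rw [ENNReal.toReal_ofNat, Real.norm_eq_abs, abs_abs, Real.rpow_two, sq_abs]
  let f : H0 := ⟨_, hmem⟩
  have hfv : ∀ v : {v : T // v ≠ []}, f v = |F (some (v : T)) - F (par (v : T))| := fun v => rfl
  have hnorm : ‖f‖ₑ ^ 2 ≤ ∑' v : T, ENNReal.ofReal ((F (some v) - F (par v)) ^ 2) := by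
    have h1 : ‖f‖ ^ 2 = ∑' v : {v : T // v ≠ []}, (F (some (v : T)) - F (par (v : T))) ^ 2 := by
      rw [← real_inner_self_eq_norm_sq, lp.inner_eq_tsum]
      refine tsum_congr fun v => ?_
      rw [hfv, real_inner_self_eq_norm_sq, Real.norm_eq_abs, abs_abs, sq_abs]
    have h3 : ‖f‖ₑ ^ 2 = ENNReal.ofReal (‖f‖ ^ 2) := by
      rw [ENNReal.ofReal_pow (norm_nonneg _), ofReal_norm]
    rw [h3, h1, ← ENNReal.ofReal_tsum_of_nonneg (fun v => sq_nonneg _) hsum]
    refine ENNReal.ofReal_le_ofReal ?_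
    exact hsum.tsum_subtype_le (fun v : T => (F (some v) - F (par v)) ^ 2) {v : T | v ≠ []} (fun v => sq_nonneg _)
  have h1 := hB H0 hker f
  refine le_trans (lintegral_mono fun p => ?_) (h1.trans (by gcongr))
  have h2 : (RKHS.coeCLM ℝ f : T × T → ℝ) p = ∑ v ∈ geo p.1 p.2, |F (some v) - F (par v)| := by
    have e : (RKHS.coeCLM ℝ f : T × T → ℝ) p = ⟪wrep p, f⟫_ℝ := apply_H0 f p
    rw [e, inner_wrep]
    simp_rw [hfv]
    rw [Finset.sum_subtype_eq_sum_filter (fun v => |F (some v) - F (par v)|)]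
    refine Finset.sum_congr ?_ fun v _ => rfl
    ext v
    rw [mem_filter]
    exact ⟨fun h => h.1, fun h => ⟨h, fun h' => nil_notMem_geo _ _ (h' ▸ h)⟩⟩
  show ENNReal.ofReal ((F (some p.1) - F (some p.2)) ^ 2) ≤ ‖(RKHS.coeCLM ℝ f : T × T → ℝ) p‖ₑ ^ 2
  have h3 : ‖(RKHS.coeCLM ℝ f : T × T → ℝ) p‖ₑ ^ 2 =
      ENNReal.ofReal (|(RKHS.coeCLM ℝ f : T × T → ℝ) p| ^ 2) := by
    rw [ENNReal.ofReal_pow (abs_nonneg _), ← Real.norm_eq_abs, ofReal_norm]
  rw [h3, h2, ← sq_abs (F (some p.1) - F (some p.2))]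
  refine ENNReal.ofReal_le_ofReal (pow_le_pow_left₀ (abs_nonneg _) ?_ 2)
  exact (abs_diff_le F p.1 p.2).trans (le_abs_self _)

end Pool.Agent.Q167.TR
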