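import Pool.Agent.Q167.TR.Defs

/-!
The dyadic tree, its geodesics, and the centre of a measure on the tree.
-/

set_option autoImplicit false

open MeasureTheory Finset
open scoped ENNReal NNReal

namespace Pool.Agent.Q167.TR

/-- the edges of the geodesic from `x` to `y` -/
def geo (x y : T) : Finset T := symmDiff (anc x) (anc y)

theorem mem_anc {v x : T} : v ∈ anc x ↔ v <+: x := by
  simp [anc, List.mem_toFinset, List.mem_inits]

theorem mem_geo {v x y : T} : v ∈ geo x y ↔ (v <+: x ∧ ¬ v <+: y) ∨ (v <+: y ∧ ¬ v <+: x) := by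
  rw [geo, Finset.mem_symmDiff, mem_anc, mem_anc]

theorem nil_notMem_geo (x y : T) : [] ∉ geo x y := by
  rw [mem_geo]
  simp

theorem comparable {v w x : T} (hv : v <+: x) (hw : w <+: x) : v <+: w ∨ w <+: v :=
  List.prefix_or_prefix_of_prefix hv hw

/-- `|k|` counts common edges -/
theorem abs_ker (p q : T × T) : |ker p q| = ((geo p.1 p.2 ∩ geo q.1 q.2).card : ℤ) := by
  classical
  obtain ⟨a, b⟩ := p
  obtain ⟨x, y⟩ := q
  set U : Finset T := anc a ∪ anc b ∪ anc x ∪ anc y with hU
  let i : T → T → ℤ := fun z v => if v ∈ anc z then 1 else 0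
  have hd : ∀ z w, anc z ⊆ U → dwedge z w = ∑ v ∈ U, i z v * i w v := by
    intro z w hz
    rw [dwedge, Finset.card_eq_sum_ones, Nat.cast_sum]
    rw [← Finset.sum_subset (s₁ := anc z ∩ anc w) (fun v hv => hz (mem_inter.1 hv).1)]
    · refine Finset.sum_congr rfl fun v hv => ?_
      rw [mem_inter] at hv
      simp [i, hv.1, hv.2]
    · intro v _ hv
      rw [mem_inter, not_and_or] at hv
      rcases hv with h | h <;> simp [i, h]
  have ha : anc a ⊆ U := fun v hv => by simp [hU, hv]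
  have hb : anc b ⊆ U := fun v hv => by simp [hU, hv]
  have hk : ker (a, b) (x, y) = ∑ v ∈ U, (i a v - i b v) * (i x v - i y v) := by
    rw [ker]
    simp only
    rw [hd a x ha, hd b y hb, hd a y ha, hd b x hb, ← Finset.sum_add_distrib, ← Finset.sum_sub_distrib,
      ← Finset.sum_sub_distrib]
    exact Finset.sum_congr rfl fun v _ => by ring
  have hsign : (∀ v, 0 ≤ (i a v - i b v) * (i x v - i y v)) ∨ (∀ v, (i a v - i b v) * (i x v - i y v) ≤ 0) := by
    by_contra hcon
    push Not at hcon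
    obtain ⟨⟨w, hw⟩, ⟨v, hv⟩⟩ := hcon
    have hmem : ∀ z v, v ∈ anc z ↔ v <+: z := fun z v => mem_anc
    simp only [i] at hw hv
    have hv' : (v <+: a ∧ ¬ v <+: b ∧ v <+: x ∧ ¬ v <+: y) ∨ (v <+: b ∧ ¬ v <+: a ∧ v <+: y ∧ ¬ v <+: x) := by
      simp only [hmem] at hv
      split_ifs at hv with h1 h2 h3 h4 h3 h4 h2 h3 h4 h3 h4 <;> simp_all
    have hw' : (w <+: a ∧ ¬ w <+: b ∧ w <+: y ∧ ¬ w <+: x) ∨ (w <+: b ∧ ¬ w <+: a ∧ w <+: x ∧ ¬ w <+: y) := by
      simp only [hmem] at hw
      split_ifs at hw with h1 h2 h3 h4 h3 h4 h2 h3 h4 h3 h4 <;> simp_all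
    rcases hv' with ⟨v1, v2, v3, v4⟩ | ⟨v1, v2, v3, v4⟩ <;>
    rcases hw' with ⟨w1, w2, w3, w4⟩ | ⟨w1, w2, w3, w4⟩
    · rcases comparable v1 w1 with h | h
      · exact v4 (h.trans w3)
      · exact w4 (h.trans v3)
    · rcases comparable v3 w3 with h | h
      · exact v2 (h.trans w1)
      · exact w2 (h.trans v1)
    · rcases comparable v3 w3 with h | h
      · exact v2 (h.trans w1)
      · exact w2 (h.trans v1)
    · rcases comparable v1 w1 with h | h
      · exact v4 (h.trans w3)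
      · exact w4 (h.trans v3)
  have habs : ∀ v, |(i a v - i b v) * (i x v - i y v)| = if v ∈ geo a b ∩ geo x y then 1 else 0 := by
    intro v
    simp only [i, mem_inter, mem_geo, mem_anc]
    by_cases h1 : v <+: a <;> by_cases h2 : v <+: b <;> by_cases h3 : v <+: x <;> by_cases h4 : v <+: y <;>
      simp [h1, h2, h3, h4]
  have hsum : |∑ v ∈ U, (i a v - i b v) * (i x v - i y v)| = ∑ v ∈ U, |(i a v - i b v) * (i x v - i y v)| := by
    rcases hsign with h | h
    · rw [abs_of_nonneg (Finset.sum_nonneg fun v _ => h v)]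
      exact Finset.sum_congr rfl fun v _ => (abs_of_nonneg (h v)).symm
    · rw [abs_of_nonpos (Finset.sum_nonpos fun v _ => h v), ← Finset.sum_neg_distrib]
      exact Finset.sum_congr rfl fun v _ => (abs_of_nonpos (h v)).symm
  rw [hk, hsum]
  simp_rw [habs]
  rw [← Finset.sum_filter, Finset.sum_const, nsmul_eq_mul, mul_one]
  congr 2
  ext v
  rw [mem_filter]
  refine ⟨fun h => h.2, fun h => ⟨?_, h⟩⟩
  have := (mem_inter.1 h).1
  rw [mem_geo] at this
  rcases this with ⟨h1, -⟩ | ⟨h1, -⟩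
  · exact ha (mem_anc.2 h1)
  · exact hb (mem_anc.2 h1)

theorem geo_triangle (x y c : T) : geo x y ⊆ geo x c ∪ geo y c := by
  intro v hv
  rw [mem_union, mem_geo, mem_geo]
  rw [mem_geo] at hv
  tauto

theorem geo_child_of_not {u c : T} {b : Bool} (h : ¬ (u ++ [b]) <+: c) :
    geo (u ++ [b]) c = insert (u ++ [b]) (geo u c) ∧ (u ++ [b]) ∉ geo u c := by
  have h0 : ¬ (u ++ [b]) <+: u := fun hh => by
    have := hh.length_le
    simp at this
  refine ⟨?_, ?_⟩
  · ext w
    rw [mem_insert, mem_geo, mem_geo, List.prefix_concat_iff]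
    by_cases hw : w = u ++ [b]
    · subst hw; simp [h, h0]
    · simp [hw]
  · rw [mem_geo]; tauto

theorem geo_child_of {u c : T} {b : Bool} (h : (u ++ [b]) <+: c) :
    geo u c = insert (u ++ [b]) (geo (u ++ [b]) c) ∧ (u ++ [b]) ∉ geo (u ++ [b]) c := by
  have h0 : ¬ (u ++ [b]) <+: u := fun hh => by
    have := hh.length_le
    simp at this
  refine ⟨?_, ?_⟩
  · ext w
    rw [mem_insert, mem_geo, mem_geo, List.prefix_concat_iff]
    by_cases hw : w = u ++ [b]
    · subst hw; simp [h, h0]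
    · simp [hw]
  · rw [mem_geo]
    simp [h]

/-- the sum of `g` along the geodesic from `x` to `c` -/
noncomputable def G (g : T → ℝ) (c x : T) : ℝ := ∑ v ∈ geo x c, g v

theorem G_self (g : T → ℝ) (c : T) : G g c c = 0 := by
  simp [G, geo]

theorem G_nonneg {g : T → ℝ} (hg : ∀ v, 0 ≤ g v) (c x : T) : 0 ≤ G g c x :=
  Finset.sum_nonneg fun v _ => hg v

theorem G_grad {g : T → ℝ} (c u : T) (b : Bool) : (G g c (u ++ [b]) - G g c u) ^ 2 = g (u ++ [b]) ^ 2 := by
  unfold G
  by_cases h : (u ++ [b]) <+: c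
  · obtain ⟨h1, h2⟩ := geo_child_of h
    rw [h1, Finset.sum_insert h2]; ring
  · obtain ⟨h1, h2⟩ := geo_child_of_not h
    rw [h1, Finset.sum_insert h2]; ring

/-- the subtree below `v` -/
def S (v : T) : Set T := {x | v <+: x}

section
variable [MeasurableSpace T] [DiscreteMeasurableSpace T] (μ : Measure T)

theorem center (hprod : ∀ v : T, v ≠ [] → μ (S v) * μ (S v)ᶜ ≠ ⊤) :
    ∃ c : T, μ (S c)ᶜ ≤ μ (S c) ∧ ∀ b, μ (S (c ++ [b])) ≤ μ (S (c ++ [b]))ᶜ := by
  by_cases h0 : μ Set.univ = 0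
  · have hz : ∀ s : Set T, μ s = 0 := fun s => measure_mono_null (Set.subset_univ s) h0
    exact ⟨[], by rw [hz, hz], fun b => by rw [hz, hz]⟩
  have hsup : ⨆ N : ℕ, μ {x : T | x.length < N} = μ Set.univ := by
    rw [← Monotone.measure_iUnion]
    · congr 1
      ext x
      simp only [Set.mem_iUnion, Set.mem_univ, iff_true]
      exact ⟨x.length + 1, Nat.lt_succ_self _⟩
    · intro m n hmn x hx
      exact lt_of_lt_of_le hx hmn
  have hnil : μ (S [])ᶜ < μ (S []) := by
    have : S [] = Set.univ := by ext x; simp [S]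
    rw [this, Set.compl_univ, measure_empty]
    exact pos_iff_ne_zero.2 h0
  have hbd : ∃ N, ∀ v : T, μ (S v)ᶜ < μ (S v) → v.length < N := by
    by_contra hcon
    push Not at hcon
    have hle : ∀ (N : ℕ) (v : T), N ≤ v.length → μ {x : T | x.length < N} ≤ μ (S v)ᶜ := by
      intro N v hv
      refine measure_mono fun x hx hx' => ?_
      have h1 : v.length ≤ x.length := List.IsPrefix.length_le hx'
      have h2 : x.length < N := hx
      omega
    have hadd : ∀ v, μ (S v) + μ (S v)ᶜ = μ Set.univ := fun v => measure_add_measure_compl (MeasurableSet.of_discrete)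
    by_cases htop : μ Set.univ = ⊤
    · have hzero : ∀ N : ℕ, μ {x : T | x.length < N} = 0 := by
        intro N
        obtain ⟨v, hv1, hv2⟩ := hcon (N + 1)
        have hvne : v ≠ [] := by rintro rfl; simp at hv2
        have h1 : μ (S v) = ⊤ := by
          by_contra h2
          have h3 : μ (S v)ᶜ ≠ ⊤ := ne_top_of_lt hv1
          have := hadd v
          rw [htop] at this
          exact ENNReal.add_ne_top.2 ⟨h2, h3⟩ this
        have h2 := hprod v hvne
        rw [h1] at h2
        have h3 : μ (S v)ᶜ = 0 := by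
          by_contra h4
          exact h2 (ENNReal.top_mul h4)
        have h4 := hle N v (by omega)
        rw [h3] at h4
        exact le_antisymm h4 bot_le
      simp_rw [hzero] at hsup
      rw [htop] at hsup
      simp at hsup
    · have hhalf : ∀ N : ℕ, μ {x : T | x.length < N} ≤ μ Set.univ / 2 := by
        intro N
        obtain ⟨v, hv1, hv2⟩ := hcon N
        have h1 := hle N v hv2
        have h2 : μ {x : T | x.length < N} * 2 ≤ μ Set.univ := by
          rw [← hadd v, mul_two]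
          exact add_le_add (h1.trans hv1.le) h1
        rwa [ENNReal.le_div_iff_mul_le (Or.inl two_ne_zero) (Or.inl ENNReal.ofNat_ne_top)]
      have h1 : μ Set.univ ≤ μ Set.univ / 2 := by
        rw [← hsup]
        refine iSup_le fun N => ?_
        have := hhalf N
        rwa [← hsup] at this
      exact absurd h1 (not_le.2 (ENNReal.half_lt_self h0 htop))
  obtain ⟨N, hN⟩ := hbd
  -- a heavy vertex of maximal length
  obtain ⟨c, hc, hmax⟩ : ∃ c : T, μ (S c)ᶜ < μ (S c) ∧ ∀ v : T, μ (S v)ᶜ < μ (S v) → v.length ≤ c.length := by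
    classical
    have hP : ∃ n, ∃ v : T, μ (S v)ᶜ < μ (S v) ∧ v.length = n := ⟨0, [], hnil, rfl⟩
    have hbdd : ∀ n, (∃ v : T, μ (S v)ᶜ < μ (S v) ∧ v.length = n) → n ≤ N := by
      rintro n ⟨v, hv, rfl⟩
      exact (hN v hv).le
    have h1 := Nat.findGreatest_spec (P := fun n => ∃ v : T, μ (S v)ᶜ < μ (S v) ∧ v.length = n) (Nat.zero_le N)
      ⟨[], hnil, rfl⟩
    obtain ⟨c, hc, hcl⟩ := h1
    refine ⟨c, hc, fun v hv => ?_⟩
    rw [hcl]
    exact Nat.le_findGreatest (hbdd _ ⟨v, hv, rfl⟩) ⟨v, hv, rfl⟩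
  refine ⟨c, hc.le, fun b => ?_⟩
  by_contra hcon
  push Not at hcon
  have := hmax _ hcon
  simp at this

end

end Pool.Agent.Q167.TR
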